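import Pool.Agent.MP_b811f7_nt.Assemble

/-!
# Infinitely many nontrivial zeros of one Goss zeta function

For the ring `A` of the starting result `Counterexample` the Goss zeta function vanishes at all
the negative odd integers `-17 · 3 ^ m`, `m ≥ 0`.
-/

set_option autoImplicit false

namespace Pool.Agent.Results.MP_b811f7_nt.InfinitelyManyZeros

open Pool.Agent.MP_b811f7_nt

variable {K : Type*} [Field K]

lemma powerSum_frob (p : ℕ) [Fact p.Prime] [CharP K p]
    {v : Valuation K (WithZero (Multiplicative ℤ))} (σ : SignFunction v) (S : Set (Res v)ˣ)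
    (k n m : ℕ) (hf : (positive σ S n).Finite) :
    powerSum σ S (k * p ^ m) n = powerSum σ S k n ^ p ^ m := by
  unfold powerSum
  rw [← iterateFrobenius_def p m (∑ᶠ a ∈ positive σ S n, a ^ k)]
  have h := AddMonoidHom.map_finsum_mem (fun a : K => a ^ k) (iterateFrobenius K p m).toAddMonoidHom hf
  rw [show (iterateFrobenius K p m) (∑ᶠ a ∈ positive σ S n, a ^ k) =
    (iterateFrobenius K p m).toAddMonoidHom (∑ᶠ a ∈ positive σ S n, a ^ k) from rfl, h]
  apply finsum_mem_congr rfl
  intro a _
  show a ^ (k * p ^ m) = iterateFrobenius K p m (a ^ k)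
  rw [iterateFrobenius_def, pow_mul]

lemma zetaValue_frob (p : ℕ) [Fact p.Prime] [CharP K p]
    {v : Valuation K (WithZero (Multiplicative ℤ))} (σ : SignFunction v) (S : Set (Res v)ˣ)
    (k m : ℕ) (hf : ∀ n, (positive σ S n).Finite) (hs : ∃ N, ∀ n, N ≤ n → powerSum σ S k n = 0) :
    zetaValue σ S (k * p ^ m) = zetaValue σ S k ^ p ^ m := by
  obtain ⟨N, hN⟩ := hs
  unfold zetaValue
  have hfin : (Function.support fun n : ℕ => powerSum σ S k n).Finite := by
    apply (Set.finite_Iio N).subset
    intro n hn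
    rw [Set.mem_Iio]
    by_contra h
    exact hn (hN n (not_lt.1 h))
  rw [← iterateFrobenius_def p m (∑ᶠ n, powerSum σ S k n)]
  have h := AddMonoidHom.map_finsum (iterateFrobenius K p m).toAddMonoidHom hfin
  rw [show (iterateFrobenius K p m) (∑ᶠ n, powerSum σ S k n) =
    (iterateFrobenius K p m).toAddMonoidHom (∑ᶠ n, powerSum σ S k n) from rfl, h]
  apply finsum_congr
  intro n
  show powerSum σ S (k * p ^ m) n = iterateFrobenius K p m (powerSum σ S k n)
  rw [iterateFrobenius_def, powerSum_frob p σ S k n m (hf n)]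

/-- There are a global function field `K` with full constant field `𝔽₃` (so `q - 1 = 2`), a place `v`
of `K`, a sign function `σ` at `v` and a set `S` of representatives of the nonzero elements of the
residue field modulo `𝔽₃ˣ`, such that the Goss zeta value at `-17 · 3 ^ m` of the ring `A` of
elements of `K` regular away from `v` is zero for every `m ≥ 0`, although none of the numbers
`17 · 3 ^ m` is divisible by `q - 1`: the Goss zeta function of `A` has infinitely many zeros at
negative integers other than the trivial ones. -/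
theorem result : ∃ (K : Type) (_ : Field K) (_ : Algebra (ZMod 3) K)
    (v : Valuation K (WithZero (Multiplicative ℤ))) (σ : SignFunction v) (S : Set (Res v)ˣ),
    IsFunctionFieldOver (ZMod 3) K ∧ Function.Surjective v ∧ Finite (Res v) ∧
    IsRepresentatives (ZMod 3) σ S ∧
    (∀ n, (positive σ S n).Finite) ∧ (∀ k, ∃ N, ∀ n, N ≤ n → powerSum σ S k n = 0) ∧
    (∀ m : ℕ, ¬ (Fintype.card (ZMod 3) - 1) ∣ 17 * 3 ^ m ∧ zetaValue σ S (17 * 3 ^ m) = 0) ∧
    {k : ℕ | ¬ (Fintype.card (ZMod 3) - 1) ∣ k ∧ zetaValue σ S k = 0}.Infinite := by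
  obtain ⟨v, σ, S, hv, hfin, hS, hz⟩ := counterexample
  have hpos : ∀ n, (positive σ S n).Finite := positive_finite function_field_KK hv σ S
  have hev : ∀ k, ∃ N, ∀ n, N ≤ n → powerSum σ S k n = 0 := fun k =>
    powerSum_eventually_zero function_field_KK hv σ S k
  have : Fact (Nat.Prime 3) := ⟨Nat.prime_three⟩
  have : CharP KK 3 := charP_of_injective_algebraMap (algebraMap (ZMod 3) KK).injective 3
  have key : ∀ m : ℕ, ¬ (Fintype.card (ZMod 3) - 1) ∣ 17 * 3 ^ m ∧
      zetaValue σ S (17 * 3 ^ m) = 0 := by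
    intro m
    refine ⟨?_, ?_⟩
    · rw [ZMod.card]
      have h : Odd (17 * 3 ^ m) := by
        apply Odd.mul (by decide)
        exact Odd.pow (by decide)
      rw [show 3 - 1 = 2 from rfl]
      rw [← even_iff_two_dvd, Nat.not_even_iff_odd]
      exact h
    · rw [zetaValue_frob 3 σ S 17 m hpos (hev 17), hz, zero_pow (pow_ne_zero _ (by norm_num))]
  refine ⟨KK, inferInstance, inferInstance, v, σ, S, function_field_KK, hv, hfin, hS,
    hpos, hev, key, ?_⟩
  apply Set.infinite_of_injective_forall_mem (f := fun m : ℕ => 17 * 3 ^ m)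
  · intro a b hab
    have h1 : 3 ^ a = 3 ^ b := Nat.eq_of_mul_eq_mul_left (by norm_num) hab
    exact Nat.pow_right_injective (by norm_num) h1
  · exact key

end Pool.Agent.Results.MP_b811f7_nt.InfinitelyManyZeros
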